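import Mathlib
import Pool.Agent.SBA.Final

/-!
MP_fb6d12_an: in every dimension `d ≥ 3` the small ball inequality holds with the exponent
`(d - 1) / 2 - 1 / (2 (d - 1))` for signs and for coefficients of comparable size.
-/

set_option autoImplicit false

namespace Pool.Agent.Results.MP_fb6d12_an.ComparableAllDims

open Finset Pool.Agent.Helper52.SBDefs

theorem result (d : ℕ) (hd : 3 ≤ d) (Λ : ℝ) (hΛ : 1 ≤ Λ) :
    ∃ c : ℝ, 0 < c ∧ ∀ n : ℕ, 1 ≤ n → ∀ a : (Fin d → ℕ × ℕ) → ℝ,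
      (∀ R ∈ rects d n, ∀ R' ∈ rects d n, |a R| ≤ Λ * |a R'|) →
        c * (((2 : ℝ) ^ n)⁻¹ * ∑ R ∈ rects d n, |a R|) ≤
          (n : ℝ) ^ (((d : ℝ) - 1) / 2 - 1 / (2 * ((d : ℝ) - 1))) * supNorm (hyp n a) :=
  SBA.comparable d hd Λ hΛ

end Pool.Agent.Results.MP_fb6d12_an.ComparableAllDims
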