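import Mathlib
import Pool.Agent.RSD.Final

/-!
MP_fb6d12_an: in every dimension `d ≥ 3` the small ball inequality holds for all real coefficients
with the exponent `(d - 1) / 2 - 1 / (4 d)` (the trivial one is `(d - 1) / 2`, the conjectured one
`(d - 2) / 2`).
-/

set_option autoImplicit false

namespace Pool.Agent.Results.MP_fb6d12_an.RealAllDim

open Finset Pool.Agent.Helper52.SBDefs

theorem result (d : ℕ) (hd : 3 ≤ d) : ∃ c : ℝ, 0 < c ∧ ∀ n : ℕ, 1 ≤ n →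
    ∀ a : (Fin d → ℕ × ℕ) → ℝ,
    c * (((2 : ℝ) ^ n)⁻¹ * ∑ R ∈ rects d n, |a R|) ≤
      (n : ℝ) ^ (((d : ℝ) - 1) / 2 - 1 / (4 * (d : ℝ))) * supNorm (hyp n a) :=
  Pool.Agent.RSD.final d (by omega)

end Pool.Agent.Results.MP_fb6d12_an.RealAllDim
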