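import Mathlib
import Pool.Agent.SBW.Final

/-!
MP_fb6d12_an: the small ball inequality in dimension three for all real coefficients, with the
conjectured exponent `1 / 2`: exactly when the coefficients that are summed lie in a window
`t ≤ |a R| ≤ Λ t` with `Λ` fixed, up to the factor `1 + log n` in general.
-/

set_option autoImplicit false

namespace Pool.Agent.Results.MP_fb6d12_an.SharpAllRealThreeDim

open Finset Pool.Agent.Helper52.SBDefs

theorem result : ∃ c : ℝ, 0 < c ∧ ∀ n : ℕ, 1 ≤ n →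
    ∀ (a : (Fin 3 → ℕ × ℕ) → ℝ) (t Λ : ℝ), 0 < t → 1 ≤ Λ →
    c * (((2 : ℝ) ^ n)⁻¹ * ∑ R ∈ (rects 3 n).filter (fun R => t ≤ |a R| ∧ |a R| ≤ Λ * t), |a R|) ≤
      (1 + Real.log (min Λ n)) * ((n : ℝ) ^ (1 / 2 : ℝ) * supNorm (hyp n a)) := by
  obtain ⟨K, hK, h⟩ := SBW.final
  refine ⟨K⁻¹, inv_pos.2 hK, fun n hn a t Λ ht hΛ => ?_⟩
  rw [inv_mul_le_iff₀ hK]
  refine (h n a t Λ hn ht hΛ).trans (le_of_eq ?_)
  ring

end Pool.Agent.Results.MP_fb6d12_an.SharpAllRealThreeDim
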