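import Mathlib
import Pool.Agent.Helper52.SbFinal

/-!
MP_fb6d12_an: the small ball inequality with the conjectured exponent `(d - 2) / 2`, `d = m + 3`,
holds on average over sign changes which depend on one side of the rectangle each
(for `d - 2` of the sides), and it holds for all coefficients which split accordingly.
-/

set_option autoImplicit false

namespace Pool.Agent.Results.MP_fb6d12_an.SmallBallTwist

open Finset Pool.Agent.Helper52.SBDefs

theorem result (m n : ℕ) (hn : 1 ≤ n) :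
    (∀ a : (Fin (m + 3) → ℕ × ℕ) → ℝ,
      (1 / 3 : ℝ) ^ (m + 1) * (((2 : ℝ) ^ n)⁻¹ * ∑ R ∈ rects (m + 3) n, |a R|) ≤
        (n : ℝ) ^ (((m : ℝ) + 1) / 2) *
          ((∑ S ∈ signs (m + 1) n, supNorm (hyp n (twist S a))) /
            ((signs (m + 1) n).card : ℝ))) ∧
    (∀ a : (Fin (m + 3) → ℕ × ℕ) → ℝ, Split (m := m + 1) a →
      (1 / 3 : ℝ) ^ (m + 1) * (((2 : ℝ) ^ n)⁻¹ * ∑ R ∈ rects (m + 3) n, |a R|) ≤
        (n : ℝ) ^ (((m : ℝ) + 1) / 2) * supNorm (hyp n a)) :=
  ⟨fun a => Pool.Agent.Helper52.SB.average m hn a,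
    fun a ha => Pool.Agent.Helper52.SB.split m hn a ha⟩

end Pool.Agent.Results.MP_fb6d12_an.SmallBallTwist
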